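import Mathlib
import Pool.Agent.H563R3.FPPDefs
import Pool.Agent.H563R3.FPPGraph

set_option autoImplicit false
open MeasureTheory ProbabilityTheory Filter Topology
open Pool.Agent.H563R3.FPP
open scoped ENNReal

namespace Pool.Agent.Results.MP_12f94a_pr.RowOfPlanes

/-- There is a connected graph of degree at most `6`, with `|B(o,n)| ≤ 27 n ^ 3` around every
vertex, satisfying the two dimensional isoperimetric inequality (so its isoperimetric dimension is
bigger than `1`), on which first passage percolation in a hostile environment has no regime of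
strong survival, whatever the starting vertex: for all `λ > 0` and `μ ∈ (0,1)`, almost surely every
vertex gets occupied and `FPP_λ` survives. -/
theorem result :
    ∃ G : SimpleGraph (ℤ × ℤ × ℤ),
      G.Connected ∧
      (∀ v, (G.neighborSet v).encard ≤ 6) ∧
      (∀ o, ∀ n : ℕ, 1 ≤ n → ({w | G.dist o w ≤ n} : Set (ℤ × ℤ × ℤ)).encard ≤
        ((27 * n ^ 3 : ℕ) : ℕ∞)) ∧
      (∀ o, PolyGrowth G o) ∧
      Isoperimetric G 2 ∧ 1 < isoDim G ∧
      (∀ (o : ℤ × ℤ × ℤ) (lam μ : ℝ), 0 < lam → 0 < μ → μ < 1 →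
        ∀ᵐ ω ∂(law (ℤ × ℤ × ℤ) lam μ), (∀ v, ∃ i, Occ G o ω i v) ∧ Survives G o ω Kind.lam) ∧
      (∀ o, ¬ HasStrongSurvival G o) :=
  ⟨rowOfPlanes, row_connected, degree_le, ball_encard, fun o => ⟨27, 3, ball_encard o⟩,
    iso_two, iso_dim, fun o _ _ hlam h0 h1 => lam_survives o hlam h0 h1, no_strong⟩

end Pool.Agent.Results.MP_12f94a_pr.RowOfPlanes
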